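import Mathlib
import Pool.Agent.Y454.CD.PartH3
import Pool.Agent.Y166.CD.PartC

set_option autoImplicit false

namespace Pool.Agent.Results.MP_0b9722_gt.KleinerEquality

open Pool.Agent.Y454.CD

theorem result : ∀ (G : Type) [Group G], HyperbolicGroup G → ACD G = visualDim G :=
  stMain_of Pool.Agent.Y166.CD.stC

end Pool.Agent.Results.MP_0b9722_gt.KleinerEquality
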